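import Pool.Agent.W993.MC.Stm

set_option autoImplicit false

open Filter Topology Pool.Agent.W993.MC

namespace Pool.Agent.W125.MC.Cv

theorem hm_nonneg (M : ℕ) : 0 ≤ hm M := Finset.sum_nonneg fun l _ => by positivity

theorem hm_succ (M : ℕ) : hm M ≤ hm (M + 1) := by
  rw [hm, hm, Finset.sum_range_succ]
  have : (0 : ℝ) ≤ 1 / ((M : ℝ) + 1) := by positivity
  linarith

theorem one_le_hm (M : ℕ) : 1 ≤ hm (M + 1) := by
  induction M with
  | zero => simp [hm]
  | succ M ih => exact ih.trans (hm_succ _)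

theorem nrm_pow {z : ℂ} (hz : ‖z‖ ≤ 1) (l : ℕ) : ‖z ^ l‖ ≤ 1 := by
  rw [norm_pow]; exact pow_le_one₀ (norm_nonneg _) hz

theorem nrm_den (l : ℕ) : ‖((l : ℂ) + 1)‖ = (l : ℝ) + 1 := by
  have : ((l : ℂ) + 1) = ((l + 1 : ℕ) : ℂ) := by push_cast; rfl
  rw [this, Complex.norm_natCast]; push_cast; rfl

/-- one increment -/
theorem incr (h1 : S_BD) (L : List (ℕ × ℂ)) (hL : ∀ p ∈ L, 1 ≤ p.1 ∧ ‖p.2‖ ≤ 1) (l : ℕ) :
    ‖S L (l + 1) - S L l‖ ≤ hm (l + 1) ^ L.length / ((l : ℝ) + 1) := by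
  rcases L with _ | ⟨⟨a, z⟩, L⟩
  · simp only [S, sub_self, norm_zero]
    have := hm_nonneg (l + 1)
    positivity
  · have hz := hL (a, z) (by simp)
    have e : S ((a, z) :: L) (l + 1) - S ((a, z) :: L) l
        = z ^ (l + 1) / ((l : ℂ) + 1) ^ a * S L l := by
      simp only [S]
      rw [Finset.sum_range_succ]; ring
    have hb := h1 L (fun p hp => hL p (by simp [hp])) l
    have hpos : (0 : ℝ) < (l : ℝ) + 1 := by positivity
    rw [e, norm_mul, norm_div, norm_pow ((l : ℂ) + 1), nrm_den]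
    have h2 : ‖z ^ (l + 1)‖ / ((l : ℝ) + 1) ^ a ≤ 1 / ((l : ℝ) + 1) := by
      refine div_le_div₀ zero_le_one (nrm_pow hz.2 _) hpos ?_
      exact le_self_pow₀ (by linarith [(Nat.cast_nonneg l : (0:ℝ) ≤ l)]) (by
        have := hz.1; simp only at this; omega)
    have h3 : hm l ^ L.length ≤ hm (l + 1) ^ ((a, z) :: L).length := by
      rw [List.length_cons]
      calc hm l ^ L.length ≤ hm (l + 1) ^ L.length :=
            pow_le_pow_left₀ (hm_nonneg _) (hm_succ _) _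
        _ ≤ hm (l + 1) ^ (L.length + 1) := pow_le_pow_right₀ (one_le_hm _) (by omega)
    calc ‖z ^ (l + 1)‖ / ((l : ℝ) + 1) ^ a * ‖S L l‖
        ≤ 1 / ((l : ℝ) + 1) * hm (l + 1) ^ ((a, z) :: L).length :=
          mul_le_mul h2 (hb.trans h3) (norm_nonneg _) (by positivity)
      _ = hm (l + 1) ^ ((a, z) :: L).length / ((l : ℝ) + 1) := by ring

theorem cv (h1 : S_BD) (h2 : S_SUM) (h3 : S_DIR) : S_CV := by
  intro a z L ha hz haz hL
  set n := L.length with hn
  have hSl : ∀ l, ‖S L l‖ ≤ hm (l + 1) ^ n := fun l =>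
    (h1 L hL l).trans (pow_le_pow_left₀ (hm_nonneg _) (hm_succ _) _)
  by_cases h : 2 ≤ a
  · have hs : Summable (fun l : ℕ => z ^ (l + 1) / ((l : ℂ) + 1) ^ a * S L l) := by
      refine Summable.of_norm_bounded (h2 n) fun l => ?_
      have hpos : (0 : ℝ) < (l : ℝ) + 1 := by positivity
      rw [norm_mul, norm_div, norm_pow ((l : ℂ) + 1), nrm_den]
      have h4 : ‖z ^ (l + 1)‖ / ((l : ℝ) + 1) ^ a ≤ 1 / ((l : ℝ) + 1) ^ 2 := by
        refine div_le_div₀ zero_le_one (nrm_pow hz _) (by positivity) ?_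
        exact pow_le_pow_right₀ (by linarith [(Nat.cast_nonneg l : (0:ℝ) ≤ l)]) h
      calc ‖z ^ (l + 1)‖ / ((l : ℝ) + 1) ^ a * ‖S L l‖
          ≤ 1 / ((l : ℝ) + 1) ^ 2 * hm (l + 1) ^ n :=
            mul_le_mul h4 (hSl l) (norm_nonneg _) (by positivity)
        _ = hm (l + 1) ^ n / ((l : ℝ) + 1) ^ 2 := by ring
    exact ⟨_, hs.hasSum.tendsto_sum_nat⟩
  · have ha1 : a = 1 := by omega
    subst ha1
    have hz1 : z ≠ 1 := fun hh => haz (by rw [hh])
    obtain ⟨v, hv⟩ := h3 z (fun l => S L l / ((l : ℂ) + 1)) hz hz1 (by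
      have h5 : Tendsto (fun l : ℕ => ‖S L l / ((l : ℂ) + 1)‖ ^ 2) atTop (𝓝 0) := by
        refine squeeze_zero (fun l => by positivity) (fun l => ?_)
          (h2 (2 * n)).tendsto_atTop_zero
        rw [norm_div, nrm_den, div_pow, pow_mul']
        refine div_le_div_of_nonneg_right ?_ (by positivity)
        exact pow_le_pow_left₀ (norm_nonneg _) (hSl l) 2
      have h6 := (Real.continuous_sqrt.tendsto 0).comp h5
      rw [Real.sqrt_zero] at h6
      rw [tendsto_zero_iff_norm_tendsto_zero]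
      refine h6.congr fun l => ?_
      exact Real.sqrt_sq (norm_nonneg _)) (by
      refine Summable.of_nonneg_of_le (fun l => norm_nonneg _) (fun l => ?_)
        ((h2 n).mul_left 2)
      have hpos : (0 : ℝ) < (l : ℝ) + 1 := by positivity
      have e1 : S L (l + 1) / (((l + 1 : ℕ) : ℂ) + 1) - S L l / ((l : ℂ) + 1)
          = (S L (l + 1) - S L l) / (((l + 1 : ℕ) : ℂ) + 1)
            - S L l / (((l : ℂ) + 1) * (((l + 1 : ℕ) : ℂ) + 1)) := by
        have h7 : ((l : ℂ) + 1) ≠ 0 := by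
          rw [← norm_pos_iff, nrm_den]; exact hpos
        have h8 : (((l + 1 : ℕ) : ℂ) + 1) ≠ 0 := by
          rw [← norm_pos_iff, nrm_den]; positivity
        field_simp
        push_cast
        ring
      rw [e1]
      refine (norm_sub_le _ _).trans ?_
      rw [norm_div, norm_div, norm_mul, nrm_den, nrm_den]
      have h9 : (l : ℝ) + 1 ≤ ((l + 1 : ℕ) : ℝ) + 1 := by push_cast; linarith
      have h10 : ‖S L (l + 1) - S L l‖ / (((l + 1 : ℕ) : ℝ) + 1)
          ≤ hm (l + 1) ^ n / ((l : ℝ) + 1) ^ 2 := by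
        calc ‖S L (l + 1) - S L l‖ / (((l + 1 : ℕ) : ℝ) + 1)
            ≤ (hm (l + 1) ^ n / ((l : ℝ) + 1)) / ((l : ℝ) + 1) :=
              div_le_div₀ (by have := hm_nonneg (l + 1); positivity) (incr h1 L hL l) hpos h9
          _ = hm (l + 1) ^ n / ((l : ℝ) + 1) ^ 2 := by rw [div_div, sq]
      have h11 : ‖S L l‖ / (((l : ℝ) + 1) * (((l + 1 : ℕ) : ℝ) + 1))
          ≤ hm (l + 1) ^ n / ((l : ℝ) + 1) ^ 2 := by
        refine div_le_div₀ (by have := hm_nonneg (l + 1); positivity) (hSl l) (by positivity) ?_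
        rw [sq]
        exact mul_le_mul_of_nonneg_left h9 hpos.le
      linarith)
    refine ⟨v, hv.congr fun M => ?_⟩
    simp only [S]
    refine Finset.sum_congr rfl fun l _ => ?_
    rw [pow_one]
    ring

end Pool.Agent.W125.MC.Cv
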